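import Pool.Agent.H99.AAE2.STDa
import Pool.Agent.H20.AAE2.DIM2
import Pool.Agent.H85.AAE2.STC
import Pool.Agent.H94.AAE2.STBf

/-! Project AAE2 (MP_ae801b_ag), module STD: the induction step of the key lemma. -/

set_option autoImplicit false

open Polynomial

namespace Pool.Agent.H99.AAE2

open Pool.Agent.H71.AAE
open Pool.Agent.H85.AAE2

universe u

/-- `Λ / b₀ → Λ[X] / b` is injective -/
theorem trLE_comap {k : Type u} [Field k] {r m : ℕ} (b : Ideal (MvPolynomial (Fin m) k)[X])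
    (hdim : TrLE k r ((MvPolynomial (Fin m) k)[X] ⧸ b)) :
    TrLE k r (MvPolynomial (Fin m) k ⧸ b.comap (C : MvPolynomial (Fin m) k →+* _)) := by
  obtain ⟨f, hf⟩ : ∃ f : MvPolynomial (Fin m) k →ₐ[k] (MvPolynomial (Fin m) k)[X],
      ∀ x, f x = C x := ⟨{ (C : MvPolynomial (Fin m) k →+* (MvPolynomial (Fin m) k)[X]) with
        commutes' := fun x => rfl }, fun _ => rfl⟩
  have h1 : b.comap (C : MvPolynomial (Fin m) k →+* (MvPolynomial (Fin m) k)[X]) =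
      b.comap f := by
    ext x
    rw [Ideal.mem_comap, Ideal.mem_comap, hf]
  rw [h1]
  exact trLE_of_injective (Ideal.quotientMapₐ b f le_rfl) (Ideal.quotientMap_injective) hdim

/-- the induction step, from the reduction step -/
theorem star_step_of {k : Type u} [Field k] {r m : ℕ} (ih : Star k r m)
    (b c : Ideal (MvPolynomial (Fin m) k)[X]) (hbc : b ≤ c)
    (hdim : TrLE k r ((MvPolynomial (Fin m) k)[X] ⧸ b)) (hbt : b ≠ ⊤)
    (d : Fin (r + 3) → (MvPolynomial (Fin m) k)[X])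
    (hd : c ≤ Ideal.span (Set.range d))
    (hred : ∃ E U : (Matrix (Fin (r + 3)) (Fin (r + 3)) (MvPolynomial (Fin m) k)[X])ˣ, Cong b E ∧
      (∀ d' : Fin (r + 3) → (MvPolynomial (Fin m) k)[X], tl (rmul d' U⁻¹) = tl d') ∧
      IsUnit (rmul d (E * U) 1).leadingCoeff ∧
      (∀ i, i ≠ 1 → (rmul d (E * U) i).degree < (rmul d (E * U) 1).degree) ∧
      c = tl (rmul d (E * U)) ⊔ (b.comap C).map C * c) :
    ∃ E : (Matrix (Fin (r + 3)) (Fin (r + 3)) (MvPolynomial (Fin m) k)[X])ˣ,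
      Cong b E ∧ tl (rmul d E) = c := by
  obtain ⟨E₁, U, h1, h2, h3, h4, h5⟩ := hred
  refine star_step_aux b c hbc hbt d hd E₁ U h1 h2 h3 h4 h5 (fun c₀ d₀ k1 k2 k3 => ?_)
    (fun b₀ w p => exists_one_add b₀ w p) (fun d k1 k2 c k3 E₀ f f₁ k4 k5 k6 k7 k8 k9 =>
      star_patch d k1 k2 c k3 E₀ f f₁ k4 k5 k6 k7 k8 k9)
  exact ih _ c₀ k1 (trLE_pow _ (trLE_comap b hdim) 2) d₀ k2 k3

end Pool.Agent.H99.AAE2

namespace Pool.Agent.H85.AAE2

universe u

/-- the induction step in `Λ[X]`, `Λ = k[Y_1..Y_m]` -/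
theorem star_step {k : Type u} [Field k] {r m : ℕ} (ih : Star k r m)
    (b c : Ideal (MvPolynomial (Fin m) k)[X]) (hbc : b ≤ c)
    (hdim : TrLE k r ((MvPolynomial (Fin m) k)[X] ⧸ b)) (h : (MvPolynomial (Fin m) k)[X])
    (hb : h ∈ b) (hh : IsUnit h.leadingCoeff) (hbt : b ≠ ⊤)
    (d : Fin (r + 3) → (MvPolynomial (Fin m) k)[X]) (hd0 : IsUnit (d 0).leadingCoeff)
    (hd : c ≤ Ideal.span (Set.range d)) (hc : c = tl d ⊔ b * c) :
    ∃ E : (Matrix (Fin (r + 3)) (Fin (r + 3)) (MvPolynomial (Fin m) k)[X])ˣ,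
      Cong b E ∧ tl (rmul d E) = c :=
  Pool.Agent.H99.AAE2.star_step_of ih b c hbc hdim hbt d hd
    (star_reduce b c hbc hdim h hb hh d hd0 hd hc)

end Pool.Agent.H85.AAE2
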