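import Mathlib
import Pool.Agent.H85.AAE2.Defs

/-! Project AAE2 (MP_ae801b_ag), module STD, part 1: the induction step of the key lemma, from the
reduction step, the resultant lemma and the patching step. -/

set_option autoImplicit false

open Polynomial

namespace Pool.Agent.H99.AAE2

open Pool.Agent.H71.AAE
open Pool.Agent.H85.AAE2 (TrLE tl rmul Cong Star)

universe u

section basic

variable {B : Type u} [CommRing B] {r : ℕ}

theorem rmul_mul (d : Fin r → B) (E F : (Matrix (Fin r) (Fin r) B)ˣ) :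
    rmul d (E * F) = rmul (rmul d E) F := by
  unfold rmul
  rw [Units.val_mul, Matrix.vecMul_vecMul]

theorem rmul_inv (d : Fin r → B) (E : (Matrix (Fin r) (Fin r) B)ˣ) :
    rmul (rmul d E) E⁻¹ = d := by
  rw [← rmul_mul, mul_inv_cancel]
  unfold rmul
  rw [Units.val_one, Matrix.vecMul_one]

theorem rmul_apply (d : Fin r → B) (E : (Matrix (Fin r) (Fin r) B)ˣ) (j : Fin r) :
    rmul d E j = ∑ i, d i * (E : Matrix (Fin r) (Fin r) B) i j := rfl

theorem span_rmul_le (d : Fin r → B) (E : (Matrix (Fin r) (Fin r) B)ˣ) :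
    Ideal.span (Set.range (rmul d E)) ≤ Ideal.span (Set.range d) := by
  rw [Ideal.span_le]
  rintro _ ⟨j, rfl⟩
  rw [rmul_apply]
  exact Ideal.sum_mem _ fun i _ => Ideal.mul_mem_right _ _ (Ideal.subset_span ⟨i, rfl⟩)

theorem span_rmul (d : Fin r → B) (E : (Matrix (Fin r) (Fin r) B)ˣ) :
    Ideal.span (Set.range (rmul d E)) = Ideal.span (Set.range d) := by
  refine le_antisymm (span_rmul_le d E) ?_
  have h := span_rmul_le (rmul d E) E⁻¹
  rw [rmul_inv] at h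
  exact h

theorem cong_iff (b : Ideal B) (E : (Matrix (Fin r) (Fin r) B)ˣ) :
    Cong b E ↔ mapU (Ideal.Quotient.mk b) E = 1 := by
  have h1 : ∀ i j, (Ideal.Quotient.mk b ((1 : Matrix (Fin r) (Fin r) B) i j)) =
      (1 : Matrix (Fin r) (Fin r) (B ⧸ b)) i j := by
    intro i j
    by_cases h : i = j
    · rw [h, Matrix.one_apply_eq, Matrix.one_apply_eq, map_one]
    · rw [Matrix.one_apply_ne h, Matrix.one_apply_ne h, map_zero]
  constructor
  · intro h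
    apply Units.ext
    ext i j
    have h2 := h i j
    rw [← Ideal.Quotient.eq_zero_iff_mem, map_sub, sub_eq_zero, h1] at h2
    exact h2
  · intro h i j
    rw [← Ideal.Quotient.eq_zero_iff_mem, map_sub, sub_eq_zero, h1]
    have h2 : (mapU (Ideal.Quotient.mk b) E : Matrix (Fin r) (Fin r) (B ⧸ b)) i j =
        ((1 : (Matrix (Fin r) (Fin r) (B ⧸ b))ˣ) : Matrix (Fin r) (Fin r) (B ⧸ b)) i j := by
      rw [h]
    exact h2

theorem cong_mul {b : Ideal B} {E F : (Matrix (Fin r) (Fin r) B)ˣ} (hE : Cong b E)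
    (hF : Cong b F) : Cong b (E * F) := by
  rw [cong_iff] at hE hF ⊢
  rw [map_mul, hE, hF, one_mul]

theorem cong_conj {b : Ideal B} {E : (Matrix (Fin r) (Fin r) B)ˣ} (hE : Cong b E)
    (U : (Matrix (Fin r) (Fin r) B)ˣ) : Cong b (U * E * U⁻¹) := by
  rw [cong_iff] at hE ⊢
  rw [map_mul, map_mul, hE, mul_one, map_inv, mul_inv_cancel]

theorem cong_mono {b b' : Ideal B} (hb : b ≤ b') {E : (Matrix (Fin r) (Fin r) B)ˣ}
    (hE : Cong b E) : Cong b' E := fun i j => hb (hE i j)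

theorem tl_map {B' : Type u} [CommRing B'] (f : B →+* B') (d : Fin (r + 1) → B) :
    (tl d).map f = tl (fun i => f (d i)) := by
  unfold tl
  rw [Ideal.map_span, ← Set.range_comp]
  rfl

end basic

variable {Λ : Type u} [CommRing Λ]

/-- `b₀ ⊂ b` -/
theorem cong_C {b : Ideal Λ[X]} {r : ℕ} {E : (Matrix (Fin r) (Fin r) Λ)ˣ}
    (hE : Cong (b.comap C) E) : Cong b (mapU C E) := by
  intro i j
  have h1 : ((mapU C E : (Matrix (Fin r) (Fin r) Λ[X])ˣ) : Matrix (Fin r) (Fin r) Λ[X]) i j -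
      (1 : Matrix (Fin r) (Fin r) Λ[X]) i j =
      C ((E : Matrix (Fin r) (Fin r) Λ) i j - (1 : Matrix (Fin r) (Fin r) Λ) i j) := by
    rw [C_sub]
    congr 1
    by_cases h : i = j
    · rw [h, Matrix.one_apply_eq, Matrix.one_apply_eq, C_1]
    · rw [Matrix.one_apply_ne h, Matrix.one_apply_ne h, C_0]
  rw [h1]
  exact hE i j

/-- the leading coefficient of `e 1` -/
theorem lc_one [IsDomain Λ] {r : ℕ} (D : Fin (r + 3) → Λ[X])
    (hdeg : ∀ i, i ≠ 1 → (D i).degree < (D 1).degree) (x : Fin (r + 3) → Λ) (hx : x 1 ≠ 0) :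
    (∑ i, D i * C (x i)).leadingCoeff = (D 1).leadingCoeff * x 1 := by
  rw [← Finset.add_sum_erase _ _ (Finset.mem_univ (1 : Fin (r + 3)))]
  have h0 : (D 1).degree ≠ ⊥ := fun h => by
    have := hdeg 0 (by simp)
    rw [h] at this
    exact not_lt_bot this
  have h1 : (D 1 * C (x 1)).degree = (D 1).degree := by
    rw [degree_mul, degree_C hx, add_zero]
  rw [leadingCoeff_add_of_degree_lt', leadingCoeff_mul, leadingCoeff_C]
  rw [h1]
  refine (degree_sum_le _ _).trans_lt ?_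
  rw [Finset.sup_lt_iff (bot_lt_iff_ne_bot.2 h0)]
  intro i hi
  refine lt_of_le_of_lt ?_ (hdeg i (Finset.ne_of_mem_erase hi))
  rw [degree_mul]
  by_cases h2 : x i = 0
  · rw [h2, C_0, degree_zero, WithBot.add_bot]
    exact bot_le
  · rw [degree_C h2, add_zero]

/-- the induction step, from the reduction step, the resultant lemma and the patching step -/
theorem star_step_aux [IsDomain Λ] [IsNoetherianRing Λ] {r : ℕ} (b c : Ideal Λ[X]) (hbc : b ≤ c)
    (hbt : b ≠ ⊤) (d : Fin (r + 3) → Λ[X]) (hd : c ≤ Ideal.span (Set.range d))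
    (E₁ U : (Matrix (Fin (r + 3)) (Fin (r + 3)) Λ[X])ˣ) (hE₁ : Cong b E₁)
    (hU : ∀ d' : Fin (r + 3) → Λ[X], tl (rmul d' U⁻¹) = tl d')
    (hlc : IsUnit (rmul d (E₁ * U) 1).leadingCoeff)
    (hdeg : ∀ i, i ≠ 1 → (rmul d (E₁ * U) i).degree < (rmul d (E₁ * U) 1).degree)
    (hc : c = tl (rmul d (E₁ * U)) ⊔ (b.comap C).map C * c)
    (ih : ∀ (c₀ : Ideal Λ) (d₀ : Fin (r + 3) → Λ), (b.comap C) ^ 2 ≤ c₀ →
      c₀ ≤ Ideal.span (Set.range d₀) → c₀ = tl d₀ ⊔ (b.comap C) ^ 2 * c₀ →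
      ∃ E : (Matrix (Fin (r + 3)) (Fin (r + 3)) Λ)ˣ, Cong ((b.comap C) ^ 2) E ∧
        tl (rmul d₀ E) = c₀)
    (hone : ∀ (b₀ : Ideal Λ) (w p : Λ[X]), (∃ v : Λ, IsUnit v ∧ w.leadingCoeff - v ∈ b₀) →
      (∀ i, (p - 1).coeff i ∈ b₀) → ∃ f₁ : Λ, f₁ - 1 ∈ b₀ ∧ C f₁ ∈ Ideal.span {w, p})
    (hpatch : ∀ (d : Fin (r + 3) → Λ[X]), IsUnit (d 1).leadingCoeff →
      (∀ i, i ≠ 1 → (d i).degree < (d 1).degree) → ∀ c : Ideal Λ[X],
      c ≤ Ideal.span (Set.range d) → ∀ (E₀ : (Matrix (Fin (r + 3)) (Fin (r + 3)) Λ)ˣ) (f f₁ : Λ),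
      f + f₁ = 1 → C f ∈ c → (E₀ : Matrix (Fin (r + 3)) (Fin (r + 3)) Λ) 1 1 ∣ f₁ →
      tl (rmul d (mapU C E₀)) ≤ c → (∀ x ∈ c, C f₁ * x ∈ tl (rmul d (mapU C E₀))) →
      tl (rmul (fun i => (d i).eval 0) E₀) = c.map (evalRingHom 0) →
      ∃ E : (Matrix (Fin (r + 3)) (Fin (r + 3)) Λ[X])ˣ, Cong (Ideal.span {C f}) E ∧
        tl (rmul d (mapU C E₀ * E)) = c) :
    ∃ E : (Matrix (Fin (r + 3)) (Fin (r + 3)) Λ[X])ˣ, Cong b E ∧ tl (rmul d E) = c := by
  obtain ⟨D, hD⟩ : ∃ D, D = rmul d (E₁ * U) := ⟨_, rfl⟩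
  rw [← hD] at hlc hdeg hc
  obtain ⟨b₀, hb₀⟩ : ∃ b₀, b₀ = b.comap (C : Λ →+* Λ[X]) := ⟨_, rfl⟩
  rw [← hb₀] at hc ih
  have hb₀b : b₀.map C ≤ b := by
    rw [hb₀]
    exact Ideal.map_comap_le
  have hdD : c ≤ Ideal.span (Set.range D) := by
    rw [hD, span_rmul]
    exact hd
  -- the slice
  obtain ⟨c₀, hc₀⟩ : ∃ c₀, c₀ = c.map (evalRingHom (0 : Λ)) := ⟨_, rfl⟩
  have hmC : (b₀.map C).map (evalRingHom (0 : Λ)) = b₀ := by
    rw [Ideal.map_map]
    have h1 : (evalRingHom (0 : Λ)).comp (C : Λ →+* Λ[X]) = RingHom.id Λ := by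
      ext x
      simp
    rw [h1, Ideal.map_id]
  have hs1 : c₀ = tl (fun i => (D i).eval 0) ⊔ b₀ * c₀ := by
    have h1 := congrArg (Ideal.map (evalRingHom (0 : Λ))) hc
    rw [Ideal.map_sup, Ideal.map_mul, tl_map, hmC, ← hc₀] at h1
    exact h1
  have hs2 : c₀ = tl (fun i => (D i).eval 0) ⊔ b₀ ^ 2 * c₀ := by
    refine le_antisymm ?_ ?_
    · have h1 : b₀ * c₀ ≤ tl (fun i => (D i).eval 0) ⊔ b₀ ^ 2 * c₀ := by
        conv_lhs => rw [hs1]
        rw [Ideal.mul_sup, ← mul_assoc, ← sq]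
        exact sup_le_sup Ideal.mul_le_right le_rfl
      conv_lhs => rw [hs1]
      exact sup_le le_sup_left h1
    · refine sup_le ?_ Ideal.mul_le_right
      conv_rhs => rw [hs1]
      exact le_sup_left
  have hb₀c₀ : b₀ ≤ c₀ := by
    rw [← hmC, hc₀]
    exact Ideal.map_mono (hb₀b.trans hbc)
  have hs3 : c₀ ≤ Ideal.span (Set.range fun i => (D i).eval 0) := by
    have h1 := Ideal.map_mono (f := evalRingHom (0 : Λ)) hdD
    rw [Ideal.map_span, ← Set.range_comp, ← hc₀] at h1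
    exact h1
  obtain ⟨E₀, hE₀, hE₀'⟩ := ih c₀ _ ((Ideal.pow_le_self (by norm_num)).trans hb₀c₀) hs3 hs2
  -- the row `e`
  obtain ⟨e, he⟩ : ∃ e, e = rmul D (mapU C E₀) := ⟨_, rfl⟩
  have hej : ∀ j, e j = ∑ i, D i * C ((E₀ : Matrix (Fin (r + 3)) (Fin (r + 3)) Λ) i j) := by
    intro j
    rw [he, rmul_apply]
    rfl
  have hsq : (b₀ ^ 2).map (C : Λ →+* Λ[X]) ≤ b₀.map C * c := by
    rw [sq, Ideal.map_mul]
    exact Ideal.mul_mono_right (hb₀b.trans hbc)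
  have hdif : ∀ j, e j - D j ∈ b₀.map (C : Λ →+* Λ[X]) * c := by
    intro j
    have h1 : e j - D j = ∑ i, D i * C ((E₀ : Matrix (Fin (r + 3)) (Fin (r + 3)) Λ) i j -
        (1 : Matrix (Fin (r + 3)) (Fin (r + 3)) Λ) i j) := by
      have h2 : D j = ∑ i, D i * C ((1 : Matrix (Fin (r + 3)) (Fin (r + 3)) Λ) i j) := by
        rw [Finset.sum_eq_single j]
        · rw [Matrix.one_apply_eq, C_1, mul_one]
        · intro i _ hi
          rw [Matrix.one_apply_ne hi, C_0, mul_zero]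
        · exact fun h => absurd (Finset.mem_univ _) h
      rw [hej]
      conv_lhs => rw [h2]
      rw [← Finset.sum_sub_distrib]
      refine Finset.sum_congr rfl fun i _ => ?_
      rw [C_sub, mul_sub]
    rw [h1]
    refine Ideal.sum_mem _ fun i _ => Ideal.mul_mem_left _ _ (hsq ?_)
    exact Ideal.mem_map_of_mem _ (hE₀ i j)
  have htD : tl D ≤ c := by
    conv_rhs => rw [hc]
    exact le_sup_left
  have hte : tl e ≤ c := by
    unfold tl
    rw [Ideal.span_le]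
    rintro _ ⟨j, rfl⟩
    have h1 : e j.succ = D j.succ + (e j.succ - D j.succ) := by ring
    show e j.succ ∈ c
    rw [h1]
    exact Ideal.add_mem _ (htD (Ideal.subset_span ⟨j, rfl⟩)) (Ideal.mul_le_right (hdif _))
  have hce : c ≤ tl e ⊔ b₀.map C * c := by
    conv_lhs => rw [hc]
    refine sup_le ?_ le_sup_right
    unfold tl
    rw [Ideal.span_le]
    rintro _ ⟨j, rfl⟩
    have h1 : D j.succ = e j.succ - (e j.succ - D j.succ) := by ring
    show D j.succ ∈ _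
    rw [h1]
    refine Ideal.sub_mem _ (Ideal.mem_sup_left (Ideal.subset_span ⟨j, rfl⟩))
      (Ideal.mem_sup_right (hdif _))
  -- Nakayama
  obtain ⟨p, hp1, hp2⟩ := Submodule.exists_sub_one_mem_and_smul_le_of_fg_of_le_sup
    (I := b₀.map C) (N := tl e) (N' := c) (P := c) (IsNoetherian.noetherian c) le_rfl hce
  have hp3 : ∀ x ∈ c, p * x ∈ tl e := fun x hx =>
    hp2 (Submodule.smul_mem_pointwise_smul x p c hx)
  -- the leading coefficient
  obtain ⟨ε, hε⟩ : ∃ ε, ε = (E₀ : Matrix (Fin (r + 3)) (Fin (r + 3)) Λ) 1 1 := ⟨_, rfl⟩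
  have hε1 : ε - 1 ∈ b₀ := by
    have h1 := Ideal.pow_le_self (by norm_num : (2 : ℕ) ≠ 0) (hE₀ 1 1)
    rw [Matrix.one_apply_eq, ← hε] at h1
    exact h1
  have hb₀1 : (1 : Λ) ∉ b₀ := by
    intro h1
    refine hbt ((Ideal.eq_top_iff_one b).2 ?_)
    rw [hb₀, Ideal.mem_comap, map_one] at h1
    exact h1
  have hε0 : ε ≠ 0 := by
    intro h1
    rw [h1, zero_sub] at hε1
    exact hb₀1 ((Ideal.neg_mem_iff _).1 hε1)
  have hlce : (e 1).leadingCoeff = (D 1).leadingCoeff * ε := by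
    rw [hej, hε]
    exact lc_one D hdeg (fun i => (E₀ : Matrix (Fin (r + 3)) (Fin (r + 3)) Λ) i 1)
      (by rw [← hε]; exact hε0)
  obtain ⟨f₁', hf1, hf2⟩ := hone b₀ (e 1) p ⟨(D 1).leadingCoeff, hlc, by
      rw [hlce]
      have h1 : (D 1).leadingCoeff * ε - (D 1).leadingCoeff = (D 1).leadingCoeff * (ε - 1) := by
        ring
      rw [h1]
      exact Ideal.mul_mem_left _ _ hε1⟩ (Ideal.mem_map_C_iff.1 hp1)
  have hf3 : ∀ x ∈ c, C f₁' * x ∈ tl e := by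
    intro x hx
    obtain ⟨a, b', hab⟩ := Ideal.mem_span_pair.1 hf2
    rw [← hab]
    have h1 : (a * e 1 + b' * p) * x = a * x * e 1 + b' * (p * x) := by ring
    rw [h1]
    refine Ideal.add_mem _ (Ideal.mul_mem_left _ _ ?_) (Ideal.mul_mem_left _ _ (hp3 x hx))
    exact Ideal.subset_span ⟨0, rfl⟩
  have hf4 : 1 - f₁' * ε ∈ b₀ := by
    have h1 : 1 - f₁' * ε = -((f₁' - 1) * ε + (ε - 1)) := by ring
    rw [h1]
    exact (Ideal.neg_mem_iff _).2 (Ideal.add_mem _ (Ideal.mul_mem_right _ _ hf1) hε1)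
  have hf5 : C (1 - f₁' * ε) ∈ b := by
    rw [hb₀] at hf4
    exact hf4
  obtain ⟨E, hE, hE'⟩ := hpatch D hlc hdeg c hdD E₀ (1 - f₁' * ε) (f₁' * ε) (by ring)
    (hbc hf5) (by rw [← hε]; exact Dvd.intro_left _ rfl) (by rw [← he]; exact hte)
    (fun x hx => by
      rw [← he]
      have h1 : C (f₁' * ε) * x = C ε * (C f₁' * x) := by
        rw [C_mul]
        ring
      rw [h1]
      exact Ideal.mul_mem_left _ _ (hf3 x hx)) (by rw [hE₀', hc₀])
  refine ⟨E₁ * (U * (mapU C E₀ * E) * U⁻¹), ?_, ?_⟩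
  · refine cong_mul hE₁ (cong_conj (cong_mul (cong_C ?_) (cong_mono ?_ hE)) U)
    · rw [← hb₀]
      exact cong_mono (Ideal.pow_le_self (by norm_num)) hE₀
    · rw [Ideal.span_singleton_le_iff_mem]
      exact hf5
  · have h1 : rmul d (E₁ * (U * (mapU C E₀ * E) * U⁻¹)) =
        rmul (rmul D (mapU C E₀ * E)) U⁻¹ := by
      rw [hD, ← rmul_mul, ← rmul_mul]
      simp only [mul_assoc]
    rw [h1, hU, hE']

end Pool.Agent.H99.AAE2
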